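import Pool.Agent.H37.CNQ.Stmts

/-!
# Row `TRV` of the board `cnq`: transitivity of the group on the places over a place of the fixed
field
-/

set_option autoImplicit false

namespace Pool.CND

open Finset

/-- the place `z ↦ ord (g z)` -/
def trvPl {k L : Type} [Field k] [Field L] [Algebra k L] (P : Place k L) (g : L ≃ₐ[k] L) :
    Place k L where
  ord z := P.ord (g z)
  ord_mul x y hx hy := by
    rw [map_mul]
    exact P.ord_mul _ _ (by simpa using hx) (by simpa using hy)
  ord_add x y hx hy hxy := by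
    rw [map_add]
    exact P.ord_add _ _ (by simpa using hx) (by simpa using hy)
      (by rw [← map_add]; exact (map_ne_zero g).2 hxy)
  ord_surj := by
    obtain ⟨x, hx, h⟩ := P.ord_surj
    exact ⟨g.symm x, by simpa using hx, by simpa using h⟩
  ord_const c hc := by
    rw [AlgEquiv.commutes]
    exact P.ord_const c hc
  residue x hx h := by
    obtain ⟨c, hc⟩ := P.residue (g x) (by simpa using hx) h
    refine ⟨c, ?_⟩
    rcases hc with hc | hc
    · left
      apply g.injective
      rw [hc, AlgEquiv.commutes]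
    · right
      rw [map_sub, AlgEquiv.commutes]
      exact hc

theorem trv_one {k L : Type} [Field k] [Field L] [Algebra k L] (P : Place k L) : P.ord 1 = 0 := by
  have h := P.ord_mul 1 1 one_ne_zero one_ne_zero
  rw [mul_one] at h
  omega

theorem trv_prod {k L ι : Type} [Field k] [Field L] [Algebra k L] (P : Place k L) (s : Finset ι)
    (f : ι → L) (hf : ∀ i ∈ s, f i ≠ 0) : P.ord (∏ i ∈ s, f i) = ∑ i ∈ s, P.ord (f i) := by
  classical
  induction s using Finset.induction_on with
  | empty => rw [Finset.prod_empty, Finset.sum_empty, trv_one]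
  | insert a s ha ih =>
    rw [Finset.prod_insert ha, Finset.sum_insert ha, P.ord_mul _ _
      (hf a (Finset.mem_insert_self _ _))
      (Finset.prod_ne_zero_iff.2 fun i hi => hf i (Finset.mem_insert_of_mem hi)),
      ih fun i hi => hf i (Finset.mem_insert_of_mem hi)]

theorem trv_thm (h1 : S_WAP) : S_TRV := by
  intro k L G _ _ _ _ _ ρ C P P' h
  classical
  by_contra hcon
  push Not at hcon
  have hfin : Fintype C := Fintype.ofFinite C
  let ι : Type := Sum C {c : C // ¬ Fixes P' (ρ c.1)}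
  have hι : Fintype ι := Fintype.ofFinite _
  let Q : ι → Place k L := fun i => match i with
    | Sum.inl c => trvPl P (ρ c.1)
    | Sum.inr c => trvPl P' (ρ c.1.1)
  obtain ⟨a, ha0, ha1, ha2⟩ := h1 k L ι P' Q (by
    rintro (c | c)
    · obtain ⟨z, hz, hz2⟩ := hcon c.1 c.2
      exact ⟨z, hz, hz2⟩
    · have h2 := c.2
      unfold Fixes at h2
      push Not at h2
      obtain ⟨z, hz, hz2⟩ := h2
      exact ⟨z, hz, hz2.symm⟩)
  have hne : ∀ c : C, ρ c.1 a ≠ 0 := fun c => by simpa using ha0
  have hz0 : (∏ c : C, ρ c.1 a) ≠ 0 := Finset.prod_ne_zero_iff.2 fun c _ => hne c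
  have hzf : ∀ c ∈ C, ρ c (∏ d : C, ρ d.1 a) = ∏ d : C, ρ d.1 a := by
    intro c hc
    rw [map_prod]
    refine Fintype.prod_equiv (Equiv.mulLeft (⟨c, hc⟩ : C)) _ _ ?_
    intro d
    show ρ c (ρ d.1 a) = ρ (c * d.1) a
    rw [map_mul]
    rfl
  have hP : P.ord (∏ c : C, ρ c.1 a) = 0 := by
    rw [trv_prod P _ _ fun c _ => hne c]
    exact Finset.sum_eq_zero fun c _ => ha2 (Sum.inl c)
  have hP' := h _ hz0 hzf hP
  rw [trv_prod P' _ _ fun c _ => hne c] at hP'
  have hge : ∀ c : C, 0 ≤ P'.ord (ρ c.1 a) := by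
    intro c
    by_cases hc : Fixes P' (ρ c.1)
    · rw [hc a ha0, ha1]
      exact zero_le_one
    · exact le_of_eq (ha2 (Sum.inr ⟨c, hc⟩)).symm
  have h3 : P'.ord (ρ (1 : C).1 a) ≤ ∑ c : C, P'.ord (ρ c.1 a) :=
    Finset.single_le_sum (f := fun c : C => P'.ord (ρ c.1 a)) (fun c _ => hge c)
      (Finset.mem_univ (1 : C))
  rw [hP'] at h3
  have h4 : ρ (1 : C).1 a = a := by
    show ρ 1 a = a
    rw [map_one]
    rfl
  rw [h4, ha1] at h3
  omega

end Pool.CND
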